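import Pool.Agent.U378.TF.R6.Tab
import Pool.Agent.U378.TF.Bm

/-! Checks of the leaves. -/

set_option autoImplicit false
set_option maxRecDepth 100000

namespace Pool.Agent.U378.TF.R6

open Pool.Agent.U378.TF

theorem lf87 : nestP 87 Bm.b87 (leafB TY PA T X) = true := by decide +kernel

theorem lf99 : nestP 99 Bm.b99 (leafB TY PA T X) = true := by decide +kernel

theorem lf103 : nestP 103 Bm.b103 (leafB TY PA T X) = true := by decide +kernel

theorem lf107 : nestP 107 Bm.b107 (leafB TY PA T X) = true := by decide +kernel

theorem lf111 : nestP 111 Bm.b111 (leafB TY PA T X) = true := by decide +kernel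

theorem lf42 : nestP 42 Bm.b42 (leafB TY PA T X) = true := by decide +kernel

theorem lf106 : nestP 106 Bm.b106 (leafB TY PA T X) = true := by decide +kernel

theorem lf51 : nestP 51 Bm.b51 (leafB TY PA T X) = true := by decide +kernel

theorem lf115 : nestP 115 Bm.b115 (leafB TY PA T X) = true := by decide +kernel

end Pool.Agent.U378.TF.R6
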