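import Pool.Agent.U378.TF.R6.Tab
import Pool.Agent.U378.TF.Psd

/-! The table 3 is positive semidefinite. -/

set_option autoImplicit false
set_option maxRecDepth 100000

namespace Pool.Agent.U378.TF.R6

open Pool.Agent.U378.TF

theorem co3 : colsB T 8388608 3 0 0 0 0 1 = true := by decide +kernel

theorem do3 : domB T 8388608 3 0 0 1 0 = true := by decide +kernel

theorem psd3 : Psd T 8388608 3 :=
  psd_pairs co3 do3 fun _ hi _ hj => ent_symm sym3 hi hj

end Pool.Agent.U378.TF.R6
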